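import Mathlib
import Pool.Agent.Lib.H99W.Stmt

/-!
# Semisimplicity of the cohomology: a local test over all fields with a real place

Let `F` be a number field, `Γ = Gal(Ω/F)`, and let `V` be a continuous `p`-adic representation of
`Γ` with a polarisation of weight `w`, Hodge–Tate at all places above `p` and geometric of weight
`w` (for instance `V = H^w(X, ℚ_p)` for `X / F` smooth projective). If `V` is not semisimple, there
are one irreducible isotropic subrepresentation `W` without stable complement and one family `D` of
half of its Hodge–Tate weights, such that over **every** number field `F₀` with a real place one
finite character and one integer satisfy the numerical conditions at all places of `F₀`: weights,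
eigenvalues of all elements, monodromy blocks, and all `l`-adic members of the compatible system.
-/

namespace Pool.Agent.Results.MP_8f1292_ag.LocalTest

theorem result : Pool.Agent.H99W.LocalTest (AlgebraicClosure ℚ) :=
  Pool.Agent.H99W.localTest

end Pool.Agent.Results.MP_8f1292_ag.LocalTest
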