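import Mathlib
import Pool.Agent.Lib.H4S.FQ
import Pool.Agent.Lib.H4S.FB

/-!
# Semisimplicity from one Frobenius element of maximal rank

`V` is a `p`-adic representation of the absolute Galois group of `ℚ`, Hodge–Tate at `p` and pure at
the prime `q ≠ p`, obtained by restriction (along `s`) from a semisimple representation `ρ` of a
compact group `G` (for instance the stabilizer of a lattice in the group of `ℚ_p`-points of a
reductive group containing the image, such as the motivic Galois group, or the fundamental group of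
a family). Suppose that for all `g` in a subset `D` of `G` whose closure contains an open subgroup
the eigenvalues of `ρ g`, suitably numbered, satisfy the multiplicative relations in one of finitely
many spaces of dimension at least `d`, and that the eigenvalues of one Frobenius element at `q`
satisfy a space of relations of dimension at most `d`. Then `V` is semisimple.
-/

namespace Pool.Agent.Results.MP_8f1292_ag.MaximalRank

open Pool.Agent.GSem H4S Polynomial Module

theorem result (p : ℕ) [Fact p.Prime] (Ω : Type*) [Field Ω] [CharZero Ω] [IsAlgClosure ℚ Ω]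
    (G : Type*) [Group G] [TopologicalSpace G] [IsTopologicalGroup G] [CompactSpace G]
    (s : Gal(Ω/ℚ) →* G) (hs : Continuous s)
    (V : Type*) [AddCommGroup V] [Module ℚ_[p] V] [FiniteDimensional ℚ_[p] V]
    (ρ : Representation ℚ_[p] G V) (hρ : IsContR ρ) (hss : SSOn ρ Set.univ)
    (N : ℕ) (h : Fin N → ℤ) (hHT : IsHodgeTate (MonoidHom.comp ρ s) h)
    (w : ℤ) (q : ℕ) (hq : q.Prime) (hqp : q ≠ p) (φ : Gal(Ω/ℚ)) (hφ : IsFrobAt q φ)
    (hpure : IsPureOp q w (ρ (s φ)))
    (n : ℕ) (hn : n = finrank ℚ_[p] V) (d : ℕ)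
    (S : Set (Submodule ℚ (Fin n → ℚ))) (hS : S.Finite) (hd : ∀ M ∈ S, d ≤ finrank ℚ M)
    (G0 : Subgroup G) (hG0 : IsOpen (G0 : Set G)) (D : Set G) (hD : (G0 : Set G) ⊆ closure D)
    (hrel : ∀ g ∈ D, ∃ M ∈ S, ∃ z : Fin n → PadicAlgCl p, EigL (ρ g) z ∧ ∀ m ∈ M, MRel z m)
    (hrank : ∃ z : Fin n → PadicAlgCl p, EigL (ρ (s φ)) z ∧
      ∀ M : Submodule ℚ (Fin n → ℚ), (∀ m ∈ M, MRel z m) → finrank ℚ M ≤ d) :
    HasStableComplements (MonoidHom.comp ρ s) := by
  classical
  let bV := Module.finBasis ℚ_[p] V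
  have hδ : (0 : ℝ) < ((p : ℝ) ^ 2)⁻¹ := by
    have := (Fact.out : p.Prime).pos
    positivity
  have hG0q : Finite (G ⧸ G0) := Subgroup.quotient_finite_of_isOpen G0 hG0
  have hG0f : G0.FiniteIndex := Subgroup.finiteIndex_of_finite_quotient
  obtain ⟨N1, hN1n, hN1f, hN1o, hN1⟩ := exists_normal_near ρ hρ bV _ hδ
  have hfi : (G0 ⊓ N1).FiniteIndex := inferInstance
  have hO : IsOpen {x : G | Sm bV (ρ x - 1) ((p : ℝ) ^ 2)⁻¹} := fn_open ρ hρ bV _ hδ
  refine crit_gal s hs ρ hρ hss h hHT w q hq hqp φ hφ hpure hn bV S hS d hd ?_ ?_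
  · rintro _ ⟨⟨x, rfl⟩, -⟩
    obtain ⟨k, hk, -, hkm⟩ := Subgroup.exists_pow_mem_of_index_ne_zero hfi.index_ne_zero x
    have hcl : x ^ k ∈ closure ({x : G | Sm bV (ρ x - 1) ((p : ℝ) ^ 2)⁻¹} ∩ D) :=
      hO.inter_closure ⟨(hN1 _ hkm.2).2, hD hkm.1⟩
    obtain ⟨-, M, hM, z', hz', hMz'⟩ := closure_rel bV (fun x => ρ x)
      (fun i j => hρ (bV j) (bV.coord i)) S hS _
      (fun a ha => ⟨ha.1, hrel a ha.2⟩) (x ^ k) hcl
    obtain ⟨z, hz⟩ := fq_exists_list (K := PadicAlgCl p) (ρ x) hn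
    have hzk : EigL (ρ (x ^ k)) (fun i => z i ^ k) := by
      rw [map_pow]
      exact eigL_pow _ z hz k
    obtain ⟨π, hπ⟩ := exists_perm_of_prod (fun i => z i ^ k) z' (hzk.symm.trans hz')
    refine ⟨M, hM, fun i => z (π i), ?_, fun m hm => ?_⟩
    · unfold EigL at hz ⊢
      rw [hz]
      exact (Equiv.prod_comp π fun i => X - C (z i)).symm
    · rw [← mrel_pow (fun i => z (π i)) k hk]
      have h1 : (fun i => z (π i) ^ k) = z' := by
        funext i
        exact (hπ i).symm
      rw [h1]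
      exact hMz' m hm
  · intro z hz M hM
    obtain ⟨z0, hz0, h0⟩ := hrank
    obtain ⟨π, hπ⟩ := exists_perm_of_prod z0 z (hz0.symm.trans hz)
    obtain ⟨M1, h1, h2⟩ := fq_finrank_perm π M
    rw [← h1]
    refine h0 M1 fun m hm => ?_
    obtain ⟨m0, hm0, rfl⟩ := h2 m hm
    apply fq_mrel_perm z0 π m0
    have h4 : (fun i => z0 (π i)) = z := by
      funext i
      exact (hπ i).symm
    rw [h4]
    exact hM m0 hm0

end Pool.Agent.Results.MP_8f1292_ag.MaximalRank
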