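import Mathlib
import Pool.Agent.Lib.H90A.Final2

/-!
# Self-duality of the constituents of pure systems of `p`-adic representations, for primes `p` of
density one


Let `F` be a number field contained in the algebraic closure `Ω` of `ℚ` and let `ρ p` (`p` a prime)
be a weakly compatible system of continuous polarised representations over `ℚ_p` of the absolute
Galois group of `F`, of rank `n`, pure of weight `w`. No regularity is assumed: this holds for
`H^w(X, ℚ_p)` for every smooth projective variety `X` over `F`.

A Frobenius polynomial of the system is neat if no quotient of two different roots is a root of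
unity and no Frobenius polynomial has more roots modulo roots of unity. Let `L` be the intersection
of the splitting fields of the neat Frobenius polynomials and `R` the set of the automorphisms of
`L` which can be extended to an automorphism of `Ω` which is odd for one of them. Then for a set of
primes `p` of lower natural density at least `|R| / [L : ℚ] > 0` (of natural density one if `L = ℚ`, or
if for primes `l` of upper density larger than `1 / 2` some `ρ l g` has all its eigenvalues in `ℚ_l` and
their number modulo roots of unity is maximal):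

* over all small open subgroups every stable subspace `Y` of `ρ p` has the same traces as
  `Y^∨(-w)`; in particular all constituents of the restriction of `ρ p` are self-dual up to this
  twist;
* if the semisimplification of `ρ p` is potentially multiplicity free, `ρ p` is semisimple;
* if `w = 2 m` and the semisimplification of `ρ p` is potentially multiplicity free apart from
  potential Tate constituents `ℚ_p(-m)`, then `ρ p` is semisimple if and only if its pairing is
  nondegenerate on the space of the potential Tate classes.

If for one `p` the powers of some `ρ p g` have `n` distinct eigenvalues, or `ρ p` is Hodge–Tate with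
distinct weights, then all `ρ p` are potentially multiplicity free.
-/

namespace Pool.Agent.Results.MP_8f1292_ag.SelfDualConstituents

open Pool.Agent.GSD Pool.Agent.Lib.H81D Pool.Agent.Lib.H90A Polynomial Module Filter Topology

theorem result (Ω : Type) [Field Ω] [CharZero Ω] [IsAlgClosure ℚ Ω]
    (F : IntermediateField ℚ Ω) [FiniteDimensional ℚ F] (n : ℕ) (w : ℤ)
    (ρ : ∀ (p : ℕ) [Fact p.Prime], Representation ℚ_[p] F.fixingSubgroup (Fin n → ℚ_[p]))
    (hcont : ∀ (p : ℕ) [Fact p.Prime], IsCont (ρ p))
    (hpol : ∀ (p : ℕ) [Fact p.Prime], ∃ B, IsPolar (ρ p) w B)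
    (hsys : IsPureSys ρ w) :
    -- the lower natural density is positive
    0 < (Nat.card (oddClasses Ω (neatMax ρ w) w) : ℝ) / finrank ℚ (commonField Ω (neatMax ρ w)) ∧
    HasNatLower {p | ∃ _ : Fact p.Prime, SelfDualSubs (ρ p) w ∧
        (PotMultFree (ρ p) → IsSemisimple (ρ p)) ∧
        ∀ m B, w = 2 * m → IsPolar (ρ p) w B → PotMultFreeTate (ρ p) m →
          (IsSemisimple (ρ p) ↔ TateNondeg (ρ p) m B)}
      ((Nat.card (oddClasses Ω (neatMax ρ w) w) : ℝ) /
        finrank ℚ (commonField Ω (neatMax ρ w))) ∧
    -- natural density one
    ((commonField Ω (neatMax ρ w) = ⊥ ∨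
        ∃ S : Set ℕ, (∀ l ∈ S, ∀ [Fact l.Prime], ∃ g : F.fixingSubgroup, IsMaxElt (ρ l) g ∧
            (LinearMap.charpoly (ρ l g)).Splits) ∧
          ∃ δ : ℝ, 1 / 2 < δ ∧ ∃ᶠ x : ℕ in atTop,
            δ * (Nat.primeCounting x : ℝ) ≤ ({l | l ≤ x ∧ l.Prime ∧ l ∈ S}.ncard : ℝ)) →
      Tendsto (fun x : ℕ =>
        ({p | p ≤ x ∧ p.Prime ∧ ∃ _ : Fact p.Prime, SelfDualSubs (ρ p) w ∧
          (PotMultFree (ρ p) → IsSemisimple (ρ p)) ∧
          ∀ m B, w = 2 * m → IsPolar (ρ p) w B → PotMultFreeTate (ρ p) m →
            (IsSemisimple (ρ p) ↔ TateNondeg (ρ p) m B)}.ncard : ℝ) /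
          (Nat.primeCounting x : ℝ)) atTop (𝓝 1)) ∧
    -- the regular case
    ((∃ (p : ℕ) (_ : Fact p.Prime), (∃ g : F.fixingSubgroup, IsStrReg (ρ p) g) ∨
        ∃ h : Fin n → ℤ, Function.Injective h ∧ IsHT (ρ p) h) →
      ∀ (p : ℕ) [Fact p.Prime], PotMultFree (ρ p)) :=
  final2 F.fixingSubgroup_isOpen hcont hpol hsys

end Pool.Agent.Results.MP_8f1292_ag.SelfDualConstituents
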