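import Mathlib
import Pool.Agent.Lib.H4S.FG
import Pool.Agent.Lib.H4S.FF

/-!
# Semisimplicity spreads from one member of a family to all `l`-generic members, for every `p`

In the application `G` is the fundamental group of a smooth model over `ℤ[1/N]` of the base `S` of a
smooth projective family over `ℚ`, `Fr q` is the set of the Frobenius elements at the points of the
model with values in the field with `q` elements, `Δ` is the geometric fundamental group, `θ` and
`ρ` are the `l`-adic and the `p`-adic representation of `G` on the cohomology in degree `w` of the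
members, `E` is the Galois group of the residue field of one closed point of `S` and `s` is the
homomorphism from the absolute Galois group of `ℚ` to `G` defined by a rational point of `S`.

If `ρ` is semisimple over `Δ` (Deligne) and over `E` (or if the geometric monodromy
representation is multiplicity-free) and if `s` is generic for ONE prime `l` (the image of the
Galois group is open in `θ(G)`), then `ρ ∘ s` is semisimple. Here `p` is any prime.
-/

namespace Pool.Agent.Results.MP_8f1292_ag.SemisimplicitySpreads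

open Pool.Agent.GSem H4S Polynomial Module

theorem result (l p : ℕ) [Fact l.Prime] [Fact p.Prime] (Ω : Type*) [Field Ω] [CharZero Ω]
    [IsAlgClosure ℚ Ω] (G : Type*) [Group G] [TopologicalSpace G] [IsTopologicalGroup G]
    [CompactSpace G]
    -- the Frobenius elements at `q`; those at large `q` are dense
    (Fr : ℕ → Set G) (hdense : ∀ c : ℕ, Dense {φ : G | ∃ q, c < q ∧ q.Prime ∧ φ ∈ Fr q})
    -- the `l`-adic and the `p`-adic representation
    (U : Type*) [AddCommGroup U] [Module ℚ_[l] U] [FiniteDimensional ℚ_[l] U]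
    (θ : Representation ℚ_[l] G U) (hθ : IsContR θ)
    (V : Type*) [AddCommGroup V] [Module ℚ_[p] V] [FiniteDimensional ℚ_[p] V]
    (ρ : Representation ℚ_[p] G V) (hρ : IsContR ρ)
    -- compatibility and purity of weight `w` at the primes `q > b`
    (w b : ℕ)
    (hcompat : ∀ q, b < q → q.Prime → ∀ φ ∈ Fr q, ∃ P : ℤ[X],
      (∀ z : ℂ, aeval z P = 0 → ‖z‖ ^ 2 = (q : ℝ) ^ w) ∧
      LinearMap.charpoly (θ φ⁻¹) = P.map (algebraMap ℤ ℚ_[l]) ∧
      LinearMap.charpoly (ρ φ⁻¹) = P.map (algebraMap ℤ ℚ_[p]))
    -- geometric semisimplicity, and one good member or multiplicity one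
    (Δ : Subgroup G) [Δ.Normal] (hΔ : SSOn ρ (Δ : Set G))
    (hst : (∃ E : Subgroup G, SSOn ρ (E : Set G) ∧ (Δ ⊔ E).FiniteIndex) ∨
      (∃ N : Subgroup G, N.FiniteIndex ∧ ∀ g ∈ N, ∀ e : Module.End ℚ_[p] V,
        (∀ d ∈ Δ, Commute (ρ d) e) → Commute (ρ g) e))
    -- the point `s`, generic for the prime `l`
    (s : Gal(Ω/ℚ) →* G) (hs : Continuous s)
    (hsF : ∀ q, b < q → q.Prime → ∀ f, IsFrobAt q f → s f ∈ Fr q)
    (hopen : ∃ N : Subgroup G, IsOpen (N : Set G) ∧ ∀ g ∈ N, ∃ σ, θ g = θ (s σ))
    (N : ℕ) (h : Fin N → ℤ) (hHT : IsHodgeTate (MonoidHom.comp ρ s) h) :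
    HasStableComplements (MonoidHom.comp ρ s) := by
  have hss : SSOn ρ Set.univ := by
    rcases hst with ⟨E, hE, hfin⟩ | ⟨N', hN', hcomm⟩
    · exact ss_of_point ρ Δ E hΔ hE hfin
    · exact ss_of_mult ρ Δ N' hΔ hN' hcomm
  exact family Fr hdense s hs b hsF θ hθ ρ hρ w hcompat hopen hss h hHT

end Pool.Agent.Results.MP_8f1292_ag.SemisimplicitySpreads
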